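import Pool.Agent.H25.CFL.Targets
import Pool.Agent.H54.CL.Types

/-!
# MP_e37c09_lc: rows RC1 and B2
-/

open Ordinal Cardinal Order Set
open scoped ZFSet

universe u

namespace Pool.Agent.H25.HCL

open _root_.HD Pool.Agent.H25.CFL

/-- RC1. -/
theorem pf_RC1 : T_RC1.{u} := fun _ ha _ hb hon =>
  ha.2 (Pool.Agent.H54.CL.sing_of_onto hb hon)

/-- B2. -/
theorem pf_B2 (hB1 : Pool.Agent.H25.CFL.T_B1.{u}) (hTG : T_TG.{u}) (hRC : T_RC1.{u}) :
    Pool.Agent.H25.CFL.T_B2.{u} := by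
  intro D g hD hDg
  have hg0 : ℵ₀ ≤ g := (hD.2.2.1.trans hDg).le
  have hgl : g.ord < hs g.ord := Pool.Agent.H54.CL.hs_gt _
  have hreg : RegHOD (hs g.ord) := Pool.Agent.H54.CL.hs_reg hg0
  have hDl : D.ord < hs g.ord := (Cardinal.ord_lt_ord.2 hDg).trans hgl
  rcases hB1 D (hs g.ord) hD hreg hDl with h | ⟨th, hth, -⟩
  · exact Or.inl h
  by_cases h0 : (hs g.ord).cof = ℵ₀
  · exact Or.inl h0
  have h1 : ℵ₀ < (hs g.ord).cof :=
    (Ordinal.aleph0_le_cof.2 hreg.1).lt_of_ne (Ne.symm h0)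
  have hle : ∀ a, RegHOD a → a < hs g.ord → a ≤ g.ord := by
    intro a ha hal
    by_contra hc
    push Not at hc
    exact hRC a ha g.ord hc (Pool.Agent.H54.CL.onto_of_lt_hs (bot_le.trans_lt hc) hal)
  have hle1 : th ≤ g.ord := by
    by_contra hc
    push Not at hc
    obtain ⟨a, h2, h3, h4, -⟩ := hth.unb ℵ₀ Cardinal.isRegular_aleph0 h1 hD.2.2.1 g.ord hc
    exact absurd (hle a h4 (h3.trans_le hth.le)) (not_le.2 h2)
  have hle2 : g.ord ≤ th := by
    by_contra hc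
    push Not at hc
    obtain ⟨t, h2, h3, h4, h5⟩ := hTG D g hD hDg th hc
    have h6 := hth.top t h2.le (h3.trans hgl) h4
    rw [h5] at h6
    exact absurd h6 (not_le.2 h1)
  right
  rw [← hth.cof, le_antisymm hle1 hle2]

end Pool.Agent.H25.HCL
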