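import Pool.Agent.H25.CFL.Targets

/-!
# MP_e37c09_lc: row KT
-/

open Ordinal Cardinal Order Set
open scoped ZFSet

universe u

namespace Pool.Agent.H25.HCL

open _root_.HD Pool.Agent.H25.CFL

theorem pk_mono {κ κ' lam : Ordinal.{u}} (h : κ ≤ κ') {x : ZFSet.{u}} (hx : x ∈ PkHOD κ lam) :
    x ∈ PkHOD κ' lam := by
  rw [PkHOD, ZFSet.mem_sep] at hx ⊢
  obtain ⟨h1, τ, hτ, h2⟩ := hx
  exact ⟨h1, τ, hτ.trans_le h, h2⟩

theorem ds_le (hDL : T_DL.{u}) {h : Ordinal.{u} → Ordinal.{u}} (hh : DR fun x y => y = h x)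
    (v : Ordinal.{u}) : DS {x | IsSuccLimit x ∧ h x ≤ v} := by
  have h1 : DO fun w => ∃ y, y = h (w 0) ∧ y ≤ v :=
    DO.ex (R := fun y w => y = h (w 0) ∧ y ≤ v)
      ((DO.s2 (X := fun x y => y = h x) hh 1 0).and (DO.lec 0 v))
  exact (DO.s1 (X := fun x => IsSuccLimit x) hDL 0).and (h1.congr fun w => by simp)

/-- KT. -/
theorem pf_KT (hKV : T_KV.{u}) (hDL : T_DL.{u}) (hBD : T_BD.{u}) : T_KT.{u} := by
  intro M lam h c hSt v hv hpos a hva hal hRa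
  by_contra hc
  push Not at hc
  obtain ⟨B, hB, hBa, e, he⟩ := All.vg a hRa.1
  obtain ⟨x, ⟨hx1, hx2⟩, -, P, hP, hcov⟩ := hKV M lam h c hSt {x | IsSuccLimit x ∧ h x ≤ v}
    (ds_le hDL hSt.hc.dh v) (fun x hx => hx.1) hpos B (fun b hb => (hBa b hb).trans hal)
    ⟨a.cof.ord, by rw [Cardinal.card_ord]; exact hc, e, he⟩
  obtain ⟨b, hb, hbd⟩ := hBD a lam P hRa (pk_mono (succ_le_of_lt (hx2.trans_lt hva)) hP)
  obtain ⟨b', hb', hbb', hbB⟩ := hB.unb b hb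
  exact absurd (hbd b' hb' (hcov b' hbB)) (not_lt.2 hbb'.le)

end Pool.Agent.H25.HCL
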