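import Pool.Agent.H25.CFL.Targets

/-!
# MP_e37c09_lc: row S1
-/

open Ordinal Cardinal Order Set
open scoped ZFSet

universe u

namespace Pool.Agent.H25.HCL

open _root_.HD Pool.Agent.H25.CFL Pool.Agent.H54.CL

/-- The image of a small set under a function in HOD. -/
theorem pk_image {γ lam lam' : Ordinal.{u}} {R : Ordinal.{u} → Ordinal.{u} → Prop} (hR : DR R)
    (h1 : ∀ a < lam', ∃ b < lam, R a b) (h2 : ∀ a < lam', ∀ b b', R a b → R a b' → b = b')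
    {x : ZFSet.{u}} (hx : x ∈ PkHOD γ lam') :
    ∃ y ∈ PkHOD γ lam, ∀ a b, a < lam' → b < lam → a.toZFSet ∈ x → R a b → b.toZFSet ∈ y := by
  rw [PkHOD, ZFSet.mem_sep, ZFSet.mem_powerset] at hx
  obtain ⟨hxs, τ, hτ, f, hf, hfn, hon⟩ := hx
  have hRf : DR fun i a => ZFSet.pair i.toZFSet a.toZFSet ∈ f := hf.od.dr
  have hRc : DR fun i b => ∃ a < lam', ZFSet.pair i.toZFSet a.toZFSet ∈ f ∧ R a b := by
    refine DO.exLtc (R := fun a w => ZFSet.pair (w 0).toZFSet a.toZFSet ∈ f ∧ R a (w 1)) lam' ?_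
    exact (DO.s2 (X := fun i a => ZFSet.pair i.toZFSet a.toZFSet ∈ f) hRf 1 0).and (DO.s2 hR 0 2)
  have hval : ∀ i < τ, ∃ a < lam', ZFSet.pair i.toZFSet a.toZFSet ∈ f := by
    intro i hi
    obtain ⟨w, hw, -⟩ := hfn.2 i.toZFSet (toZFSet_mem_toZFSet_iff.2 hi)
    have h3 := hfn.1 hw
    rw [ZFSet.pair_mem_prod] at h3
    obtain ⟨a, ha, rfl⟩ := mem_toZFSet_iff.1 (hxs h3.2)
    exact ⟨a, ha, hw⟩
  have huni : ∀ i < τ, ∀ a a' : Ordinal.{u}, ZFSet.pair i.toZFSet a.toZFSet ∈ f →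
      ZFSet.pair i.toZFSet a'.toZFSet ∈ f → a = a' := by
    intro i hi a a' ha ha'
    obtain ⟨w, -, hw⟩ := hfn.2 i.toZFSet (toZFSet_mem_toZFSet_iff.2 hi)
    exact toZFSet_injective ((hw _ ha).trans (hw _ ha').symm)
  refine ⟨os lam {b | ∃ i < τ, ∃ a < lam', ZFSet.pair i.toZFSet a.toZFSet ∈ f ∧ R a b}, ?_,
    fun a b ha hb hax hab => ?_⟩
  · rw [PkHOD, ZFSet.mem_sep, ZFSet.mem_powerset]
    refine ⟨fun z hz => ?_, τ, hτ, rs τ lam _, hod_rs hRc τ lam, ⟨fun p hp => ?_, fun z hz => ?_⟩,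
      fun z hz => ?_⟩
    · obtain ⟨b, hb, -, rfl⟩ := mem_os.1 hz
      exact toZFSet_mem_toZFSet_iff.2 hb
    · obtain ⟨i, hi, b, hb, ⟨a, ha, hia, hab⟩, rfl⟩ := mem_rs.1 hp
      exact ZFSet.pair_mem_prod.2 ⟨toZFSet_mem_toZFSet_iff.2 hi,
        mem_os.2 ⟨b, hb, ⟨i, hi, a, ha, hia, hab⟩, rfl⟩⟩
    · obtain ⟨i, hi, rfl⟩ := mem_toZFSet_iff.1 hz
      obtain ⟨a, ha, hia⟩ := hval i hi
      obtain ⟨b, hb, hab⟩ := h1 a ha
      refine ⟨b.toZFSet, pair_mem_rs.2 ⟨hi, hb, a, ha, hia, hab⟩, fun y hy => ?_⟩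
      obtain ⟨i', hi', b', hb', ⟨a', ha', hia', hab'⟩, he⟩ := mem_rs.1 hy
      obtain ⟨he1, rfl⟩ := ZFSet.pair_injective he
      have := toZFSet_injective he1
      subst this
      have h4 := huni i hi' a' a hia' hia
      subst h4
      rw [h2 a' ha _ _ hab' hab]
    · obtain ⟨b, hb, ⟨i, hi, a, ha, hia, hab⟩, rfl⟩ := mem_os.1 hz
      exact ⟨i, hi, pair_mem_rs.2 ⟨hi, hb, a, ha, hia, hab⟩⟩
  · obtain ⟨i, hi, hia⟩ := hon _ hax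
    exact mem_os.2 ⟨b, hb, ⟨i, hi, a, ha, hia, hab⟩, rfl⟩

/-- S1. -/
theorem pf_S1 : T_S1.{u} := by
  intro γ lam lam' hon hSU
  obtain ⟨R, hR, h1, h2, h3⟩ := onto_fun hon
  obtain ⟨x, hx, hcov⟩ := hSU
  choose y hy hy2 using fun k => pk_image hR h1 h2 (hx k)
  refine ⟨y, hy, fun b hb => ?_⟩
  obtain ⟨a, ha, hab⟩ := h3 b hb
  obtain ⟨k, hk⟩ := hcov a ha
  exact ⟨k, hy2 k a b ha hb hk hab⟩

end Pool.Agent.H25.HCL
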